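import Mathlib

/-!
# Families of large, almost disjoint sets without bounded transversals

In the affine plane over `ZMod p` keep all vertical lines and replace every other line by the set of
its points whose column belongs to a random union of at least half of `K = 4 C + 4` blocks of
columns. A set `S` which meets every vertical line in at most `C` points has at most `C p` points, so
at least half of the non-vertical lines contain at most `2 C` of its points; each of these is missed
with probability at least `1 / P`, where `P` is the number of patterns. A union bound over all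
`S` with at most `C p` points finishes the proof.
-/

set_option autoImplicit false

namespace Pool.Agent.N440.BT

open Finset

variable {p : ℕ} [hp : Fact p.Prime]

/-- The part of the line `y = l.1 x + l.2` over the columns whose block is in `T`. -/
def part (K : ℕ) (l : ZMod p × ZMod p) (T : Finset ℕ) : Finset (ZMod p × ZMod p) :=
  (univ.filter (fun x : ZMod p => x.val % K ∈ T)).image (fun x => (x, l.1 * x + l.2))

/-- The vertical line over `x`. -/
def vert (x : ZMod p) : Finset (ZMod p × ZMod p) :=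
  univ.image (fun y => (x, y))

/-- The patterns. -/
def pats (K : ℕ) : Finset (Finset ℕ) :=
  (range K).powerset.filter (fun T => K ≤ 2 * T.card)

lemma mem_part {K : ℕ} {l : ZMod p × ZMod p} {T : Finset ℕ} {s : ZMod p × ZMod p} :
    s ∈ part K l T ↔ s.1.val % K ∈ T ∧ s.2 = l.1 * s.1 + l.2 := by
  unfold part
  rw [mem_image]
  constructor
  · rintro ⟨x, hx, rfl⟩
    exact ⟨(mem_filter.1 hx).2, rfl⟩
  · rintro ⟨h1, h2⟩
    exact ⟨s.1, mem_filter.2 ⟨mem_univ _, h1⟩, Prod.ext rfl h2.symm⟩

lemma mem_vert {x : ZMod p} {s : ZMod p × ZMod p} : s ∈ vert x ↔ s.1 = x := by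
  unfold vert
  rw [mem_image]
  constructor
  · rintro ⟨y, _, rfl⟩
    rfl
  · rintro rfl
    exact ⟨s.2, mem_univ _, rfl⟩

lemma card_vert (x : ZMod p) : (vert x).card = p := by
  unfold vert
  rw [card_image_of_injective _ (fun a b h => (Prod.mk.inj h).2), card_univ, ZMod.card]

lemma card_part (K : ℕ) (l : ZMod p × ZMod p) (T : Finset ℕ) :
    (part K l T).card = (univ.filter (fun x : ZMod p => x.val % K ∈ T)).card := by
  unfold part
  rw [card_image_of_injective _ (fun a b h => (Prod.mk.inj h).1)]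

/-- lower bound for the size of the parts -/
lemma le_card_part {K : ℕ} (hK : 0 < K) (l : ZMod p × ZMod p) {T : Finset ℕ}
    (hT : T ⊆ range K) : T.card * (p / K) ≤ (part K l T).card := by
  rw [card_part, ← card_range (p / K), ← card_product]
  have : NeZero p := ⟨hp.out.ne_zero⟩
  have hlt : ∀ q ∈ T ×ˢ range (p / K), q.1 + K * q.2 < p := by
    intro q hq
    rw [mem_product, mem_range] at hq
    have h1 := mem_range.1 (hT hq.1)
    have h2 : K * (q.2 + 1) ≤ K * (p / K) := Nat.mul_le_mul_left K hq.2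
    have h3 := Nat.mul_div_le p K
    calc q.1 + K * q.2 < K + K * q.2 := by omega
      _ = K * (q.2 + 1) := by ring
      _ ≤ p := h2.trans h3
  apply card_le_card_of_injOn (fun q => ((q.1 + K * q.2 : ℕ) : ZMod p))
  · intro q hq
    have h := hlt q hq
    rw [mem_coe, mem_filter]
    refine ⟨mem_univ _, ?_⟩
    rw [ZMod.val_natCast, Nat.mod_eq_of_lt h, Nat.add_mul_mod_self_left]
    have h1 := (mem_product.1 hq).1
    rw [Nat.mod_eq_of_lt (mem_range.1 (hT h1))]
    exact h1
  · intro q hq q' hq' h
    have h1 := hlt q hq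
    have h2 := hlt q' hq'
    have h3 : ((q.1 + K * q.2 : ℕ) : ZMod p).val = ((q'.1 + K * q'.2 : ℕ) : ZMod p).val :=
      congrArg ZMod.val h
    rw [ZMod.val_natCast, ZMod.val_natCast, Nat.mod_eq_of_lt h1, Nat.mod_eq_of_lt h2] at h3
    have h4 := mem_range.1 (hT (mem_product.1 hq).1)
    have h5 := mem_range.1 (hT (mem_product.1 hq').1)
    have h6 : q.1 = q'.1 := by
      have := congrArg (· % K) h3
      simp only [Nat.add_mul_mod_self_left] at this
      rwa [Nat.mod_eq_of_lt h4, Nat.mod_eq_of_lt h5] at this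
    have h7 : q.2 = q'.2 := by
      rw [h6] at h3
      have : K * q.2 = K * q'.2 := by omega
      exact Nat.eq_of_mul_eq_mul_left hK this
    exact Prod.ext h6 h7

/-! ### intersections -/

lemma inter_vert_vert {x x' : ZMod p} (h : x ≠ x') : (vert x ∩ vert x').card ≤ 1 := by
  rw [card_le_one]
  intro s hs t _
  rw [mem_inter, mem_vert, mem_vert] at hs
  exact absurd (hs.1.symm.trans hs.2) h

lemma inter_vert_part {K : ℕ} (x : ZMod p) (l : ZMod p × ZMod p) (T : Finset ℕ) :
    (vert x ∩ part K l T).card ≤ 1 := by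
  rw [card_le_one]
  intro s hs t ht
  rw [mem_inter, mem_vert, mem_part] at hs ht
  have h1 : s.1 = t.1 := hs.1.trans ht.1.symm
  exact Prod.ext h1 (by rw [hs.2.2, ht.2.2, h1])

lemma inter_part_part {K : ℕ} {l l' : ZMod p × ZMod p} (h : l ≠ l') (T T' : Finset ℕ) :
    (part K l T ∩ part K l' T').card ≤ 1 := by
  rw [card_le_one]
  intro s hs t ht
  rw [mem_inter, mem_part, mem_part] at hs ht
  have h1 := hs.1.2.symm.trans hs.2.2
  have h2 := ht.1.2.symm.trans ht.2.2
  by_cases h3 : l.1 = l'.1
  · exfalso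
    apply h
    refine Prod.ext h3 ?_
    rw [h3] at h1
    exact add_left_cancel h1
  · have h4 : (l.1 - l'.1) * (s.1 - t.1) = 0 := by
      linear_combination h1 - h2
    rcases mul_eq_zero.1 h4 with h5 | h5
    · exact absurd (sub_eq_zero.1 h5) h3
    · have h6 := sub_eq_zero.1 h5
      exact Prod.ext h6 (by rw [hs.1.2, ht.1.2, h6])

/-! ### counting -/

/-- the points of `S` on the line `l` -/
def onLine (S : Finset (ZMod p × ZMod p)) (l : ZMod p × ZMod p) : Finset (ZMod p × ZMod p) :=
  S.filter (fun s => s.2 = l.1 * s.1 + l.2)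

lemma card_lines (s : ZMod p × ZMod p) :
    (univ.filter (fun l : ZMod p × ZMod p => s.2 = l.1 * s.1 + l.2)).card = p := by
  have h : univ.filter (fun l : ZMod p × ZMod p => s.2 = l.1 * s.1 + l.2) =
      univ.image (fun a : ZMod p => (a, s.2 - a * s.1)) := by
    ext l
    rw [mem_filter, mem_image]
    constructor
    · rintro ⟨_, h⟩
      exact ⟨l.1, mem_univ _, Prod.ext rfl (by rw [h]; ring)⟩
    · rintro ⟨a, _, rfl⟩
      exact ⟨mem_univ _, by ring⟩
  rw [h, card_image_of_injective _ (fun a b h => (Prod.mk.inj h).1), card_univ, ZMod.card]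

lemma sum_onLine (S : Finset (ZMod p × ZMod p)) : ∑ l, (onLine S l).card = S.card * p := by
  unfold onLine
  simp_rw [card_filter]
  rw [sum_comm]
  simp_rw [← card_filter, card_lines]
  rw [sum_const, smul_eq_mul]

/-- at least half of the lines contain at most `2 C` points of a set with at most `C p` points -/
lemma many_good {C : ℕ} {S : Finset (ZMod p × ZMod p)} (hS : S.card ≤ C * p) :
    p * p ≤ 2 * (univ.filter (fun l => (onLine S l).card ≤ 2 * C)).card := by
  have h1 : (univ.filter (fun l => (onLine S l).card ≤ 2 * C)).card +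
      (univ.filter (fun l => ¬ (onLine S l).card ≤ 2 * C)).card = p * p := by
    rw [card_filter_add_card_filter_not, card_univ, Fintype.card_prod, ZMod.card]
  have h2 : (univ.filter (fun l => ¬ (onLine S l).card ≤ 2 * C)).card * (2 * C + 1) ≤
      S.card * p := by
    rw [← sum_onLine, ← smul_eq_mul, ← sum_const]
    calc ∑ _l ∈ univ.filter (fun l => ¬ (onLine S l).card ≤ 2 * C), (2 * C + 1)
        ≤ ∑ l ∈ univ.filter (fun l => ¬ (onLine S l).card ≤ 2 * C), (onLine S l).card :=
          sum_le_sum (fun l hl => by have := (mem_filter.1 hl).2; omega)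
      _ ≤ ∑ l, (onLine S l).card := sum_le_sum_of_subset (filter_subset _ _)
  have h3 : S.card * p ≤ C * (p * p) := by
    rw [← mul_assoc]
    exact Nat.mul_le_mul_right p hS
  set b := (univ.filter (fun l => ¬ (onLine S l).card ≤ 2 * C)).card
  have h4 : (2 * C + 1) * (2 * b) ≤ (2 * C + 1) * (p * p) := by nlinarith
  have h5 := Nat.le_of_mul_le_mul_left h4 (by omega)
  omega

lemma onLine_vert_card {C : ℕ} {S : Finset (ZMod p × ZMod p)}
    (h : ∀ x : ZMod p, (vert x ∩ S).card ≤ C) : S.card ≤ C * p := by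
  have h1 : S.card = ∑ x ∈ (univ : Finset (ZMod p)), (S.filter (fun s => s.1 = x)).card :=
    card_eq_sum_card_fiberwise (fun _ _ => mem_coe.2 (mem_univ _))
  rw [h1]
  calc ∑ x ∈ (univ : Finset (ZMod p)), (S.filter (fun s => s.1 = x)).card
      ≤ ∑ _x ∈ (univ : Finset (ZMod p)), C := by
        refine sum_le_sum (fun x _ => (card_le_card ?_).trans (h x))
        intro s hs
        rw [mem_filter] at hs
        exact mem_inter.2 ⟨mem_vert.2 hs.2, hs.1⟩
    _ = C * p := by rw [sum_const, card_univ, ZMod.card, smul_eq_mul, mul_comm]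

/-- the patterns with which the line `l` meets `S` -/
def hit (K : ℕ) (S : Finset (ZMod p × ZMod p)) (l : ZMod p × ZMod p) : Finset (Finset ℕ) :=
  (pats K).filter (fun T => 1 ≤ (part K l T ∩ S).card)

lemma hit_lt {C : ℕ} {S : Finset (ZMod p × ZMod p)} {l : ZMod p × ZMod p}
    (h : (onLine S l).card ≤ 2 * C) :
    (hit (4 * C + 4) S l).card + 1 ≤ (pats (4 * C + 4)).card := by
  set K := 4 * C + 4 with hK
  set T0 := range K \ (onLine S l).image (fun s => s.1.val % K) with hT0
  have h1 : T0 ∈ pats K := by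
    unfold pats
    rw [mem_filter, mem_powerset]
    refine ⟨sdiff_subset, ?_⟩
    have h2 := le_card_sdiff ((onLine S l).image (fun s => s.1.val % K)) (range K)
    have h3 : ((onLine S l).image (fun s => s.1.val % K)).card ≤ 2 * C := card_image_le.trans h
    rw [card_range] at h2
    rw [← hT0] at h2
    omega
  have h2 : T0 ∉ hit K S l := by
    unfold hit
    rw [mem_filter, not_and]
    intro _ h4
    obtain ⟨s, hs⟩ := card_pos.1 (Nat.lt_of_lt_of_le Nat.zero_lt_one h4)
    rw [mem_inter, mem_part] at hs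
    have h5 : s ∈ onLine S l := mem_filter.2 ⟨hs.2, hs.1.2⟩
    have h6 := hs.1.1
    rw [hT0, mem_sdiff] at h6
    exact h6.2 (mem_image_of_mem _ h5)
  exact Nat.succ_le_of_lt (card_lt_card ((ssubset_iff_of_subset (filter_subset _ _)).2 ⟨T0, h1, h2⟩))

lemma pats_pos (K : ℕ) : 0 < (pats K).card := by
  rw [card_pos]
  refine ⟨range K, ?_⟩
  unfold pats
  rw [mem_filter, mem_powerset, card_range]
  exact ⟨Subset.refl _, by omega⟩

/-- The number of pattern functions for which `S` meets all the parts. -/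
lemma card_bad {C : ℕ} {S : Finset (ZMod p × ZMod p)} (hS : S.card ≤ C * p) :
    ((Fintype.piFinset (fun l => hit (4 * C + 4) S l)).card : ℝ) ≤
      ((pats (4 * C + 4)).card : ℝ) ^ (p * p) *
        Real.exp (-((p * p : ℕ) : ℝ) / (2 * (pats (4 * C + 4)).card)) := by
  set K := 4 * C + 4 with hK
  set P := (pats K).card with hP
  have hPpos : (0 : ℝ) < P := by exact_mod_cast pats_pos K
  set G := univ.filter (fun l => (onLine S l).card ≤ 2 * C) with hG
  have hGc : (p * p : ℕ) ≤ 2 * G.card := many_good hS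
  rw [Fintype.card_piFinset, Nat.cast_prod]
  have h1 : ∀ l : ZMod p × ZMod p, ((hit K S l).card : ℝ) ≤
      P * (if l ∈ G then (1 - 1 / (P : ℝ)) else 1) := by
    intro l
    split_ifs with hl
    · have := hit_lt (mem_filter.1 hl).2
      have h2 : ((hit K S l).card : ℝ) + 1 ≤ P := by exact_mod_cast this
      rw [mul_sub, mul_one, mul_one_div_cancel hPpos.ne']
      linarith
    · rw [mul_one]
      exact_mod_cast card_le_card (filter_subset _ _)
  calc ∏ l, ((hit K S l).card : ℝ)
      ≤ ∏ l, ((P : ℝ) * (if l ∈ G then (1 - 1 / (P : ℝ)) else 1)) :=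
        prod_le_prod (fun l _ => Nat.cast_nonneg _) (fun l _ => h1 l)
    _ = (P : ℝ) ^ (p * p) * (1 - 1 / (P : ℝ)) ^ G.card := by
        rw [prod_mul_distrib, prod_const, card_univ, Fintype.card_prod, ZMod.card, prod_ite,
          prod_const, prod_const, one_pow, mul_one]
        congr 3
        ext l
        simp
    _ ≤ (P : ℝ) ^ (p * p) * Real.exp (-((p * p : ℕ) : ℝ) / (2 * P)) := by
        apply mul_le_mul_of_nonneg_left _ (by positivity)
        have h3 : (1 : ℝ) ≤ P := by exact_mod_cast pats_pos K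
        have h4 : 0 ≤ 1 - 1 / (P : ℝ) := by
          rw [sub_nonneg, div_le_one hPpos]
          exact h3
        calc (1 - 1 / (P : ℝ)) ^ G.card ≤ (Real.exp (-(1 / (P : ℝ)))) ^ G.card :=
              pow_le_pow_left₀ h4 (Real.one_sub_le_exp_neg _) _
          _ = Real.exp (G.card * (-(1 / (P : ℝ)))) := (Real.exp_nat_mul _ _).symm
          _ ≤ Real.exp (-((p * p : ℕ) : ℝ) / (2 * P)) := by
              apply Real.exp_le_exp.2
              have h5 : ((p * p : ℕ) : ℝ) ≤ 2 * G.card := by exact_mod_cast hGc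
              have h6 : ((p * p : ℕ) : ℝ) / (2 * P) ≤ (G.card : ℝ) / P := by
                rw [div_le_div_iff₀ (by positivity) hPpos]
                nlinarith
              have h7 : -((p * p : ℕ) : ℝ) / (2 * P) = -(((p * p : ℕ) : ℝ) / (2 * P)) := by ring
              have h8 : (G.card : ℝ) * (-(1 / (P : ℝ))) = -((G.card : ℝ) / P) := by ring
              rw [h7, h8]
              exact neg_le_neg h6

/-- The nonempty sets with at most `j` elements are images of functions on `Fin j`. -/
lemma card_small (j : ℕ) :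
    ((univ : Finset (Finset (ZMod p × ZMod p))).filter
      (fun S => S.Nonempty ∧ S.card ≤ j)).card ≤ (p * p) ^ j := by
  classical
  have h : (univ : Finset (Finset (ZMod p × ZMod p))).filter (fun S => S.Nonempty ∧ S.card ≤ j) ⊆
      (univ : Finset (Fin j → ZMod p × ZMod p)).image (fun g => univ.image g) := by
    intro S hS
    obtain ⟨hne, hc⟩ := (mem_filter.1 hS).2
    obtain ⟨s0, hs0⟩ := hne
    have : Nonempty S := ⟨⟨s0, hs0⟩⟩
    have hcard : Fintype.card S ≤ Fintype.card (Fin j) := by
      rw [Fintype.card_coe, Fintype.card_fin]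
      exact hc
    obtain ⟨φ⟩ := Function.Embedding.nonempty_of_card_le hcard
    rw [mem_image]
    refine ⟨fun i => (Function.invFun φ i : S), mem_univ _, ?_⟩
    ext s
    rw [mem_image]
    constructor
    · rintro ⟨i, _, rfl⟩
      exact (Function.invFun φ i).2
    · intro hs
      refine ⟨φ ⟨s, hs⟩, mem_univ _, ?_⟩
      rw [Function.leftInverse_invFun φ.injective]
  refine (card_le_card h).trans (card_image_le.trans ?_)
  rw [card_univ, Fintype.card_fun, Fintype.card_prod, ZMod.card, Fintype.card_fin]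

/-- Main step: for large `p` there is a pattern function for which no set is a transversal of all
vertical lines and all parts with at most `C` points on each vertical line. -/
lemma exists_good (C : ℕ)
    (hbig : (64 : ℝ) * ((C : ℝ) * (pats (4 * C + 4)).card) ^ 2 < p) :
    ∃ f : ZMod p × ZMod p → Finset ℕ, (∀ l, f l ∈ pats (4 * C + 4)) ∧
      ∀ S : Finset (ZMod p × ZMod p), (∀ x : ZMod p, (vert x ∩ S).card ≤ C) →
        ∃ l, (part (4 * C + 4) l (f l) ∩ S).card = 0 := by
  classical
  set K := 4 * C + 4 with hK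
  set P := (pats K).card with hP
  by_contra hcon
  push Not at hcon
  have hPpos : (0 : ℝ) < P := by exact_mod_cast pats_pos K
  have hp0 : (0 : ℝ) < p := by exact_mod_cast hp.out.pos
  -- the union bound
  have hsub : Fintype.piFinset (fun _ : ZMod p × ZMod p => pats K) ⊆
      ((univ : Finset (Finset (ZMod p × ZMod p))).filter
        (fun S => S.Nonempty ∧ S.card ≤ C * p)).biUnion
        (fun S => Fintype.piFinset (fun l => hit K S l)) := by
    intro f hf
    rw [Fintype.mem_piFinset] at hf
    obtain ⟨S, hS1, hS2⟩ := hcon f hf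
    rw [mem_biUnion]
    refine ⟨S, ?_, ?_⟩
    · rw [mem_filter]
      refine ⟨mem_univ _, ?_, onLine_vert_card hS1⟩
      have h0 := hS2 (0, 0)
      rw [Finset.card_ne_zero] at h0
      exact h0.mono inter_subset_right
    · rw [Fintype.mem_piFinset]
      intro l
      unfold hit
      rw [mem_filter]
      exact ⟨hf l, Nat.one_le_iff_ne_zero.2 (hS2 l)⟩
  have h1 := (card_le_card hsub).trans card_biUnion_le
  rw [Fintype.card_piFinset, prod_const, card_univ, Fintype.card_prod, ZMod.card, ← hP] at h1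
  have h2 : ((P ^ (p * p) : ℕ) : ℝ) ≤
      ∑ S ∈ (univ : Finset (Finset (ZMod p × ZMod p))).filter
        (fun S => S.Nonempty ∧ S.card ≤ C * p),
        ((Fintype.piFinset (fun l => hit K S l)).card : ℝ) := by
    exact_mod_cast h1
  have h3 : ∑ S ∈ (univ : Finset (Finset (ZMod p × ZMod p))).filter
        (fun S => S.Nonempty ∧ S.card ≤ C * p),
        ((Fintype.piFinset (fun l => hit K S l)).card : ℝ) ≤
      (((p * p) ^ (C * p) : ℕ) : ℝ) * ((P : ℝ) ^ (p * p) *
        Real.exp (-((p * p : ℕ) : ℝ) / (2 * P))) := by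
    calc _ ≤ ∑ _S ∈ (univ : Finset (Finset (ZMod p × ZMod p))).filter
            (fun S => S.Nonempty ∧ S.card ≤ C * p), ((P : ℝ) ^ (p * p) *
            Real.exp (-((p * p : ℕ) : ℝ) / (2 * P))) :=
          sum_le_sum (fun S hS => card_bad (mem_filter.1 hS).2.2)
      _ = (((univ : Finset (Finset (ZMod p × ZMod p))).filter
            (fun S => S.Nonempty ∧ S.card ≤ C * p)).card : ℝ) * ((P : ℝ) ^ (p * p) *
            Real.exp (-((p * p : ℕ) : ℝ) / (2 * P))) := by
          rw [sum_const, nsmul_eq_mul]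
      _ ≤ _ := by
          apply mul_le_mul_of_nonneg_right _ (by positivity)
          exact_mod_cast card_small (p := p) (C * p)
  have h4 := h2.trans h3
  push_cast at h4
  have hPP : (0 : ℝ) < (P : ℝ) ^ (p * p) := by positivity
  -- so `1 ≤ (p * p) ^ (C * p) * exp (- p * p / (2 * P))`
  have h5 : (1 : ℝ) ≤ ((p : ℝ) * p) ^ (C * p) * Real.exp (-((p : ℝ) * p) / (2 * P)) := by
    have h6 : (P : ℝ) ^ (p * p) * 1 ≤
        (P : ℝ) ^ (p * p) * (((p : ℝ) * p) ^ (C * p) * Real.exp (-((p : ℝ) * p) / (2 * P))) := by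
      calc (P : ℝ) ^ (p * p) * 1 = (P : ℝ) ^ (p * p) := mul_one _
        _ ≤ _ := h4
        _ = _ := by ring
    exact le_of_mul_le_mul_left h6 hPP
  -- upper bound for the power
  have hs0 : 0 < Real.sqrt p := Real.sqrt_pos.2 hp0
  have hss : Real.sqrt p * Real.sqrt p = p := Real.mul_self_sqrt hp0.le
  have hlog : (p : ℝ) * p ≤ Real.exp (4 * Real.sqrt p) := by
    have h7 : Real.sqrt p ≤ Real.exp (Real.sqrt p) := by
      have := Real.add_one_le_exp (Real.sqrt p)
      linarith
    have h8 : (p : ℝ) * p = Real.sqrt p ^ 4 := by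
      calc (p : ℝ) * p = (Real.sqrt p * Real.sqrt p) * (Real.sqrt p * Real.sqrt p) := by rw [hss]
        _ = Real.sqrt p ^ 4 := by ring
    rw [h8]
    calc Real.sqrt p ^ 4 ≤ (Real.exp (Real.sqrt p)) ^ 4 := pow_le_pow_left₀ hs0.le h7 4
      _ = Real.exp (4 * Real.sqrt p) := by
        rw [← Real.exp_nat_mul]
        norm_num
  have h9 : ((p : ℝ) * p) ^ (C * p) ≤ Real.exp ((C * p : ℕ) * (4 * Real.sqrt p)) := by
    calc ((p : ℝ) * p) ^ (C * p) ≤ (Real.exp (4 * Real.sqrt p)) ^ (C * p) :=
          pow_le_pow_left₀ (by positivity) hlog _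
      _ = _ := (Real.exp_nat_mul _ _).symm
  have h10 : (1 : ℝ) ≤ Real.exp ((C * p : ℕ) * (4 * Real.sqrt p) + -((p : ℝ) * p) / (2 * P)) := by
    rw [Real.exp_add]
    exact h5.trans (mul_le_mul_of_nonneg_right h9 (Real.exp_pos _).le)
  have h11 : 0 ≤ ((C * p : ℕ) : ℝ) * (4 * Real.sqrt p) + -((p : ℝ) * p) / (2 * P) := by
    by_contra hneg
    rw [not_le] at hneg
    have := Real.exp_lt_exp.2 hneg
    rw [Real.exp_zero] at this
    linarith
  push_cast at h11
  -- i.e. `p * p ≤ 8 C P p sqrt p`
  have h12 : (p : ℝ) * p ≤ 8 * (C * P) * p * Real.sqrt p := by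
    have h13 : (p : ℝ) * p / (2 * P) ≤ (C : ℝ) * p * (4 * Real.sqrt p) := by
      have : -((p : ℝ) * p) / (2 * P) = -(((p : ℝ) * p) / (2 * P)) := by ring
      rw [this] at h11
      linarith
    rw [div_le_iff₀ (by positivity)] at h13
    calc (p : ℝ) * p ≤ (C : ℝ) * p * (4 * Real.sqrt p) * (2 * P) := h13
      _ = _ := by ring
  have h14 : Real.sqrt p ≤ 8 * (C * P) := by
    have h15 : (p : ℝ) * Real.sqrt p * Real.sqrt p ≤ (p : ℝ) * Real.sqrt p * (8 * (C * P)) := by
      calc (p : ℝ) * Real.sqrt p * Real.sqrt p = p * (Real.sqrt p * Real.sqrt p) := by ring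
        _ = p * p := by rw [hss]
        _ ≤ 8 * (C * P) * p * Real.sqrt p := h12
        _ = _ := by ring
    exact le_of_mul_le_mul_left h15 (by positivity)
  have h16 : (p : ℝ) ≤ 64 * ((C : ℝ) * P) ^ 2 := by
    calc (p : ℝ) = Real.sqrt p * Real.sqrt p := hss.symm
      _ ≤ (8 * (C * P)) * (8 * (C * P)) := mul_le_mul h14 h14 hs0.le (by positivity)
      _ = _ := by ring
  linarith

/-- The disproof. -/
theorem main : ∀ C : ℕ, ∃ n : ℕ, ∃ F : Finset (Finset (Fin n)),
    (∀ A ∈ F, 1 / 8 * Real.sqrt (n : ℝ) < ((A.card : ℕ) : ℝ)) ∧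
    (∀ A ∈ F, ∀ B ∈ F, A ≠ B → (A ∩ B).card ≤ 1) ∧
    ¬ ∃ S : Finset (Fin n), ∀ A ∈ F, 1 ≤ (A ∩ S).card ∧ (A ∩ S).card ≤ C := by
  classical
  intro C
  set K := 4 * C + 4 with hK
  obtain ⟨N, hN⟩ := exists_nat_gt ((64 : ℝ) * ((C : ℝ) * (pats K).card) ^ 2)
  obtain ⟨p, hpN, hpp⟩ := Nat.exists_infinite_primes (N + 4 * K)
  have : Fact p.Prime := ⟨hpp⟩
  have hbig : (64 : ℝ) * ((C : ℝ) * (pats (4 * C + 4)).card) ^ 2 < p := by
    refine hN.trans_le ?_
    exact_mod_cast (show N ≤ p by omega)
  obtain ⟨f, hf1, hf2⟩ := exists_good (p := p) C hbig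
  have hcardV : Fintype.card (ZMod p × ZMod p) = p * p := by
    rw [Fintype.card_prod, ZMod.card]
  let e : (ZMod p × ZMod p) ≃ Fin (p * p) := Fintype.equivFinOfCardEq hcardV
  let F0 : Finset (Finset (ZMod p × ZMod p)) :=
    univ.image (fun x : ZMod p => vert x) ∪ univ.image (fun l => part K l (f l))
  refine ⟨p * p, F0.image (fun A => A.map e.toEmbedding), ?_, ?_, ?_⟩
  · intro A hA
    obtain ⟨B, hB, rfl⟩ := mem_image.1 hA
    rw [card_map]
    have hsq : Real.sqrt ((p * p : ℕ) : ℝ) = p := by
      push_cast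
      exact Real.sqrt_mul_self (Nat.cast_nonneg p)
    rw [hsq]
    have hp0 : (0 : ℝ) < p := by exact_mod_cast hpp.pos
    rcases mem_union.1 hB with h | h
    · obtain ⟨x, _, rfl⟩ := mem_image.1 h
      rw [card_vert]
      linarith
    · obtain ⟨l, _, rfl⟩ := mem_image.1 h
      have h1 := hf1 l
      unfold pats at h1
      rw [mem_filter, mem_powerset] at h1
      have h2 := le_card_part (p := p) (K := K) (by omega) l h1.1
      have h3 : p < 8 * (part K l (f l)).card := by
        have h4 : p < K * (p / K) + K := by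
          have := Nat.lt_mul_div_succ p (show 0 < K by omega)
          rw [mul_add, mul_one] at this
          exact this
        have h5 : K * (p / K) ≤ 2 * ((f l).card * (p / K)) := by
          rw [← mul_assoc]
          exact Nat.mul_le_mul_right _ h1.2
        omega
      have h6 : (p : ℝ) < 8 * ((part K l (f l)).card : ℝ) := by exact_mod_cast h3
      linarith
  · intro A hA B hB hAB
    obtain ⟨A', hA', rfl⟩ := mem_image.1 hA
    obtain ⟨B', hB', rfl⟩ := mem_image.1 hB
    rw [← map_inter, card_map]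
    have hne : A' ≠ B' := fun h => hAB (by rw [h])
    rcases mem_union.1 hA' with h | h <;> rcases mem_union.1 hB' with h' | h'
    · obtain ⟨x, _, rfl⟩ := mem_image.1 h
      obtain ⟨x', _, rfl⟩ := mem_image.1 h'
      exact inter_vert_vert (fun hx => hne (by rw [hx]))
    · obtain ⟨x, _, rfl⟩ := mem_image.1 h
      obtain ⟨l, _, rfl⟩ := mem_image.1 h'
      exact inter_vert_part x l _
    · obtain ⟨l, _, rfl⟩ := mem_image.1 h
      obtain ⟨x, _, rfl⟩ := mem_image.1 h'
      rw [inter_comm]
      exact inter_vert_part x l _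
    · obtain ⟨l, _, rfl⟩ := mem_image.1 h
      obtain ⟨l', _, rfl⟩ := mem_image.1 h'
      exact inter_part_part (fun hx => hne (by rw [hx])) _ _
  · rintro ⟨S, hS⟩
    have hS' : ∀ A ∈ F0, 1 ≤ (A ∩ S.map e.symm.toEmbedding).card ∧
        (A ∩ S.map e.symm.toEmbedding).card ≤ C := by
      intro A hA
      have h1 := hS _ (mem_image_of_mem _ hA)
      have h2 : (A.map e.toEmbedding ∩ S) = (A ∩ S.map e.symm.toEmbedding).map e.toEmbedding := by
        rw [map_inter]
        congr 1
        ext s
        simp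
      rw [h2, card_map] at h1
      exact h1
    obtain ⟨l, hl⟩ := hf2 (S.map e.symm.toEmbedding) (fun x =>
      (hS' _ (mem_union_left _ (mem_image_of_mem _ (mem_univ x)))).2)
    have := (hS' _ (mem_union_right _ (mem_image_of_mem (fun l => part K l (f l))
      (mem_univ l)))).1
    exact Nat.one_le_iff_ne_zero.1 this hl

end Pool.Agent.N440.BT
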